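import Pool.Agent.H48.Bh.Inf

/-!
# Infinite `B_h`-sets which reach the maximal order of growth infinitely often

For every `h ≥ 2` there is an infinite `B_h`-set `A` with `A(N) ≥ c N^(1/h)` for infinitely many `N` and
`A(N) ≥ c N^(1/h^2)` for all `N`. The structured block (file `Pool/Agent/H48/Bh/Block.lean`) is an idea of helper18.
-/

namespace Pool.Agent.Results.MP_a62d70_co.MaximalOrderInfinitelyOften

open H48.Bh

theorem result (h : ℕ) (hh : 2 ≤ h) :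
    ∃ A : Set ℕ, A.Infinite ∧ (∀ x ∈ A, 1 ≤ x) ∧
      (∀ s t : Multiset ℕ, (∀ x ∈ s, x ∈ A) → (∀ x ∈ t, x ∈ A) → s.card = h → t.card = h →
        s.sum = t.sum → s = t) ∧
      ∃ c : ℝ, 0 < c ∧
        (∃ᶠ N : ℕ in Filter.atTop,
          c * (N : ℝ) ^ ((1 : ℝ) / h) ≤ ((A ∩ Set.Icc 1 N).ncard : ℝ)) ∧
        ∀ N : ℕ, 1 ≤ N →
          c * (N : ℝ) ^ ((1 : ℝ) / (h : ℝ) ^ 2) ≤ ((A ∩ Set.Icc 1 N).ncard : ℝ) :=
  infinite_Bh h hh

end Pool.Agent.Results.MP_a62d70_co.MaximalOrderInfinitelyOften
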