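import Mathlib
import Pool.Agent.H56.BT.Density

/-!
# MP_a62d70_co: `B_3`-sets of bounded macroscopic density have `liminf A(N) / N^(1/3) = 0`

Suppose that a `B_3`-set `A` is not concentrated at the scale of `x`: for every fixed `ε > 0` and all
large `x` there are at most `C ε x^(2/3)` pairs `b < c` in `A` with `x < b ≤ 2 x`, `c - b ≤ ε x`
(this holds, with another constant, if `(x, (1 + ε) x]` contains at most `C ε x^(1/3)` elements of
`A`).  Then for every `c > 0` every interval `[x, L x]`, `x` large, contains `N` with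
`A(N) < c N^(1/3)`; `L` depends only on `C` and `c`.

Proof.  Let `A_k` be the part of `A` in `(N_k, N_{k+1}]`, `N_k = ξ³ κ^(3k)`, and suppose that
`|A_k| ≥ N_k^(1/3)` for all `k < 2 W`.  For every `j` the triples `a ∈ A_i`, `b, c ∈ A_k`, `i < k`,
with `b - c - a ∈ (-2 N_j, N_j)` are at most `6 N_j` (`B_3`).  The energy of `A_k` at resolution `N_j`
(number of pairs in the same cell of length `N_j`, normalized) is bounded and increases when `j`
decreases.  So there are distances `R_q < R_{q+1}` such that it hardly changes between the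
resolutions `k - R_{q+1}` and `k - R_q`; for `j` in this range a shift by an element `a` of
`A_{k - R_q - 2}` moves `A_k` into itself as often as for a random set, which gives about
`N_j κ^(-R_q)` triples.  The number of such `k` for a given `j` is on average `R_{q+1} - R_q`, which
is chosen much larger than `κ^(R_q)`, a contradiction.
-/

namespace Pool.Agent.Results.MP_a62d70_co.RegularSetsTooSparse

/-- `A` is a `B_3`-set: the sums of three elements (repetition allowed) are distinct up to order -/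
def IsB3 (A : Set ℕ) : Prop :=
  ∀ a ∈ A, ∀ b ∈ A, ∀ c ∈ A, ∀ d ∈ A, ∀ e ∈ A, ∀ f ∈ A,
    a ≤ b → b ≤ c → d ≤ e → e ≤ f → a + b + c = d + e + f → a = d ∧ b = e ∧ c = f

/-- for every `ε > 0` and all large `x` there are at most `C ε x^(2/3)` pairs `b < c` in `A` with
`x < b ≤ 2 x` and `c - b ≤ ε x` -/
def PairBound (A : Set ℕ) (C : ℝ) : Prop :=
  ∀ ε : ℝ, 0 < ε → ∃ x₀ : ℕ, ∀ x : ℕ, x₀ ≤ x →
    (({t : ℕ × ℕ | t.1 ∈ A ∧ t.2 ∈ A ∧ x < t.1 ∧ t.1 ≤ 2 * x ∧ t.1 < t.2 ∧
      (t.2 : ℝ) ≤ t.1 + ε * x}.ncard : ℕ) : ℝ) ≤ C * ε * (x : ℝ) ^ (2 / 3 : ℝ)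

/-- for every `ε > 0` and all large `x` the interval `(x, (1 + ε) x]` contains at most
`C ε x^(1/3)` elements of `A` -/
def DensityBound (A : Set ℕ) (C : ℝ) : Prop :=
  ∀ ε : ℝ, 0 < ε → ∃ x₀ : ℕ, ∀ x : ℕ, x₀ ≤ x →
    (({a : ℕ | a ∈ A ∧ x < a ∧ (a : ℝ) ≤ (1 + ε) * x}.ncard : ℕ) : ℝ) ≤
      C * ε * (x : ℝ) ^ (1 / 3 : ℝ)

/-- For all `C` and `c > 0` there is `L` such that for every `B_3`-set `A` which satisfies the pair
bound or the density bound with the constant `C`, and for all large `x`, there is `N` with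
`x ≤ N ≤ L x` and `A(N) < c N^(1/3)`. -/
theorem result (C c : ℝ) (hc : 0 < c) :
    ∃ L : ℕ, ∀ A : Set ℕ, IsB3 A → (PairBound A C ∨ DensityBound A C) →
      ∃ x₁ : ℕ, ∀ x : ℕ, x₁ ≤ x → ∃ N : ℕ, x ≤ N ∧ N ≤ L * x ∧
        ((A ∩ Set.Icc 1 N).ncard : ℝ) < c * (N : ℝ) ^ (1 / 3 : ℝ) := by
  obtain ⟨L, hL⟩ := Pool.Agent.H56.BT.main C c hc
  obtain ⟨L', hL'⟩ := Pool.Agent.H56.BT.main (8 * |C|) c hc
  refine ⟨max L L', ?_⟩
  intro A hA h
  rcases h with h | h
  · obtain ⟨x₁, hx₁⟩ := hL A hA h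
    refine ⟨x₁, fun x hx => ?_⟩
    obtain ⟨N, h1, h2, h3⟩ := hx₁ x hx
    exact ⟨N, h1, h2.trans (Nat.mul_le_mul_right x (le_max_left L L')), h3⟩
  · obtain ⟨x₁, hx₁⟩ := hL' A hA (Pool.Agent.H56.BT.pairBound_of_densityBound hA h)
    refine ⟨x₁, fun x hx => ?_⟩
    obtain ⟨N, h1, h2, h3⟩ := hx₁ x hx
    exact ⟨N, h1, h2.trans (Nat.mul_le_mul_right x (le_max_right L L')), h3⟩

end Pool.Agent.Results.MP_a62d70_co.RegularSetsTooSparse
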